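import Pool.Agent.H.MP_fa5791_lc.E

set_option autoImplicit false

/-! Computable chain covers of computable partial orders of finite width. -/

namespace Pool.Agent.H.MP_738f58_lc

open Pool.Agent.Lib.helper21.PR Pool.Agent.H.MP_fa5791_lc Finset

attribute [local irreducible] Primrec Computable

theorem greedy {A : ℕ → Bool} {E : ℕ → ℕ → Bool} (hA : CI O A) (hE : CI O fun z : ℕ × ℕ => E z.1 z.2) :
    ∃ M : ℕ → Bool, CI O M ∧ ∀ z, M z ↔ A z ∧ ∀ m < z, M m → E m z := by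
  obtain ⟨M, a, b⟩ := ci_cov (f := fun s (l : List Bool) => cd (A s ∧ ∀ m < s, l.getD m false → E m s)) (by fun_prop)
  refine ⟨M, a, fun z => ?_⟩
  rw [b, cd_true]
  exact and_congr_right fun _ => forall₂_congr fun m h => by simp [h]

theorem colour {F : ℕ → ℕ → Bool} {n : ℕ} (hF : CI O fun z : ℕ × ℕ => F z.1 z.2)
    (h : ∀ m, ((range m).filter (F · m)).card ≤ n) :
    ∃ k : ℕ → ℕ, CI O k ∧ (∀ m, k m ≤ n) ∧ ∀ m, ∀ a < m, F a m → k a ≠ k m := by
  obtain ⟨g, a, b⟩ := RI.choice (Y := O) (R := fun (z : ℕ × List ℕ) j => j ≤ n ∧ ∀ a < z.1, F a z.1 → z.2.getD a 0 ≠ j)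
    (by fun_prop) fun z => by
      obtain ⟨j, c, d⟩ := exists_mem_notMem_of_card_lt_card (t := range (n + 1)) (s := ((range z.1).filter
        (F · z.1)).image (z.2.getD · 0)) (card_image_le.trans_lt (by simpa [Nat.lt_succ_iff] using h z.1))
      exact ⟨j, by simpa [Nat.lt_succ_iff] using c, fun a e f g => d (mem_image.2 ⟨a, by simp [e, f], g⟩)⟩
  obtain ⟨k, c, d⟩ := ci_cov (f := fun s l => g (s, l)) (by fun_prop)
  exact ⟨k, c, fun m => d m ▸ (b _).1, fun m a e f => by simpa [e, ← d] using (b (m, (List.range m).map k)).2 a e f⟩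

theorem few {S : ℕ → ℕ → Prop} [DecidableRel S] (T : Finset ℕ) (i : ∀ a, ¬ S a a) (t : ∀ a b c, S a b → S b c → S a c)
    (h : ∀ a ∈ T, ∀ b ∈ T, a ≠ b → S a b ∨ S b a) : (T.filter fun a => (T.filter (S a)).card ≤ 2).card ≤ 3 := by
  have k : ∀ a ∈ T, ∀ b ∈ T, S a b → (T.filter (S b)).card < (T.filter (S a)).card := fun a _ b c d =>
    card_lt_card ⟨fun x e => by grind, fun e => by simpa [i] using e (mem_filter.2 ⟨c, d⟩)⟩
  refine (card_le_card_of_injOn (t := range 3) (fun a => (T.filter (S a)).card) (fun a => by grind)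
    fun a c b d e => by_contra fun f => ?_).trans (card_range _).le
  have c := (mem_filter.1 c).1
  have d := (mem_filter.1 d).1
  exact (h a c b d f).elim (fun g => (k a c b d g).ne' e) fun g => (k b d a c g).ne e

theorem nest {s : Finset ℕ} (hs : s.Nonempty) (U : ℕ → Finset ℕ) (h : ∀ x y, U x ⊆ U y ∨ U y ⊆ U x) :
    ∃ x ∈ s, ∀ y ∈ s, U y ⊆ U x := by
  obtain ⟨x, a, b⟩ := exists_max_image s (fun x => (U x).card) hs
  exact ⟨x, a, fun y c => (h y x).elim id fun d => (eq_of_subset_of_card_le d (b y c)).ge⟩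

/-- a partial order on the set of reflexive points -/
structure PO (r : ℕ → ℕ → Bool) : Prop where
  ci : CI O fun z : ℕ × ℕ => r z.1 z.2
  dm : ∀ x y, r x y → r x x ∧ r y y
  an : ∀ x y, r x y → r y x → x = y
  tr : ∀ x y z, r x y → r y z → r x z

theorem cover (w : ℕ) : ∃ n, ∀ r, PO r → (∀ s : Finset ℕ, (∀ x ∈ s, r x x) →
    (∀ x ∈ s, ∀ y ∈ s, x ≠ y → ¬ r x y) → s.card ≤ w) →
      ∃ g : ℕ → ℕ, CI O g ∧ (∀ x, g x < n) ∧ ∀ x y, r x x → r y y → g x = g y → r x y ∨ r y x := by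
  classical
  induction w with
  | zero => exact ⟨1, fun r _ h => ⟨fun _ => 0, by fun_prop, by simp, fun x y a => by simpa [a] using h {x}⟩⟩
  | succ w ih =>
  obtain ⟨n, ih⟩ := ih
  refine ⟨14 * n + 1, fun r ⟨r0, r1, r2, r3⟩ hw => ?_⟩
  obtain ⟨C, c0, c1⟩ := greedy (A := fun x => r x x) (E := fun a b => cd (r a b ∨ r b a)) (by fun_prop) (by fun_prop)
  simp only [cd_true] at c1
  have c2 : ∀ a b, C a → C b → r a b ∨ r b a := fun a b h k => by
    have := (c1 a).1 h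
    have := (c1 b).1 k
    grind
  obtain ⟨A, a0, a1⟩ : ∃ A : ℕ → Bool, CI O A ∧ ∀ x, A x ↔ r x x ∧ ¬ C x := ⟨fun _ => cd _, by fun_prop, fun _ => cd_true⟩
  have c3 : ∀ x, A x → ∃ c < x, C c ∧ ¬ r c x ∧ ¬ r x c := fun x h => by
    have := (a1 x).1 h
    have := c1 x
    grind
  obtain ⟨p, p0, p1⟩ : ∃ p : ℕ → ℕ → Bool, CI O (fun z : ℕ × ℕ => p z.1 z.2) ∧ ∀ x y, p x y ↔ A x ∧ A y ∧
    ∀ c < max x y, C c → r x c ∨ r c y := ⟨fun _ _ => cd _, by fun_prop, fun _ _ => cd_true⟩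
  obtain ⟨q, q0, q1⟩ : ∃ q : ℕ → ℕ → Bool, CI O (fun z : ℕ × ℕ => q z.1 z.2) ∧ ∀ x z, q x z ↔ A x ∧ A z ∧
      ∃ y v, r x y ∧ p y v ∧ r v z := by
    refine ⟨fun x z => cd (A x ∧ A z ∧ ∃ y < max x z + 1, ∃ v < max x z + 1, r x y ∧ p y v ∧ r v z), by fun_prop,
      fun x z => cd_true.trans (and_congr_right fun a => and_congr_right fun b =>
        ⟨fun ⟨y, _, v, _, h⟩ => ⟨y, v, h⟩, fun ⟨y, v, h⟩ => ?_⟩)⟩
    by_cases e : max y v ≤ max x z
    · exact ⟨y, by omega, v, by omega, h⟩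
    · exact ⟨x, by omega, z, by omega, ((a1 _).1 a).1, (p1 _ _).2 ⟨a, b, fun c d f => (((p1 _ _).1 h.2.1).2.2 c
        (by omega) f).imp (r3 _ _ _ h.1) (r3 _ _ _ · h.2.2)⟩, ((a1 _).1 b).1⟩
  have q2 : ∀ x, ¬ q x x := fun x h => by
    obtain ⟨-, -, y, v, a, b, c⟩ := (q1 _ _).1 h
    obtain ⟨b, -, d⟩ := (p1 _ _).1 b
    obtain ⟨e, f, g, l, m⟩ := c3 y b
    exact (d e (by omega) g).elim m fun o => l (r3 _ _ _ (r3 _ _ _ o c) a)
  have q3 : ∀ x y z, q x y → q y z → ∃ c, C c ∧ r x c ∧ r c z := fun x y z h k => by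
    obtain ⟨-, -, a, b, h1, h2, h3⟩ := (q1 _ _).1 h
    obtain ⟨-, -, u, v, k1, k2, k3⟩ := (q1 _ _).1 k
    obtain ⟨-, h4, h5⟩ := (p1 _ _).1 h2
    obtain ⟨k4, -, k5⟩ := (p1 _ _).1 k2
    have e := r3 _ _ _ h3 k1
    by_cases o : max a b ≤ max u v
    · obtain ⟨c, f, g, l, m⟩ := c3 b h4
      exact ⟨c, g, r3 _ _ _ h1 ((h5 c (by omega) g).resolve_right l),
        r3 _ _ _ ((k5 c (by omega) g).resolve_left (m <| r3 _ _ _ e ·)) k3⟩
    · obtain ⟨c, f, g, l, m⟩ := c3 u k4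
      exact ⟨c, g, r3 _ _ _ h1 ((h5 c (by omega) g).resolve_right (l <| r3 _ _ _ · e)),
        r3 _ _ _ ((k5 c (by omega) g).resolve_left m) k3⟩
  have q4 : ∀ x y z, q x y → q y z → q x z := fun x y z h k => by
    obtain ⟨c, a, b, d⟩ := q3 _ _ _ h k
    have e := ((q1 _ _).1 h).1
    have f := ((q1 _ _).1 k).2.1
    exact (q1 _ _).2 ⟨e, f, x, z, ((a1 _).1 e).1, (p1 _ _).2 ⟨e, f, fun u _ l => (c2 c u a l).imp (r3 _ _ _ b)
      (r3 _ _ _ · d)⟩, ((a1 _).1 f).1⟩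
  obtain ⟨s, s0, s1⟩ : ∃ s : ℕ → ℕ → Bool, CI O (fun z : ℕ × ℕ => s z.1 z.2) ∧ ∀ x z, s x z ↔
    A x ∧ A z ∧ r x z ∨ q x z := ⟨fun _ _ => cd _, by fun_prop, fun _ _ => cd_true⟩
  have s2 : ∀ x y z, s x y → q y z → q x z := fun x y z h k => ((s1 _ _).1 h).elim (fun h =>
    let ⟨_, a, u, v, b, c⟩ := (q1 _ _).1 k; (q1 _ _).2 ⟨h.1, a, u, v, r3 _ _ _ h.2.2 b, c⟩) (q4 _ _ _ · k)
  have s3 : ∀ x y z, q x y → s y z → q x z := fun x y z h k => ((s1 _ _).1 k).elim (fun k =>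
    let ⟨a, _, u, v, b, c, d⟩ := (q1 _ _).1 h; (q1 _ _).2 ⟨a, k.2.1, u, v, b, c, r3 _ _ _ d k.2.2⟩) (q4 _ _ _ h)
  have s4 : ∀ x, s x x ↔ A x := fun x => by
    have := a1 x
    have := q2 x
    grind
  obtain ⟨g, g0, g1, g2⟩ := ih s ⟨s0, fun x y h => by grind, fun x y h k => by grind, fun x y z h k => by grind⟩
    fun t h k => by
      rcases t.eq_empty_or_nonempty with rfl | e
      · simp
      simp only [s4] at h
      obtain ⟨x, x1, x2⟩ := nest e (fun x => (range (t.sup id)).filter fun c => C c ∧ r x c) fun x y => by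
        by_contra! o
        simp only [not_subset, mem_filter] at o
        grind
      obtain ⟨y, y1, y2⟩ := nest e (fun x => (range (t.sup id)).filter fun c => C c ∧ r c x) fun x y => by
        by_contra! o
        simp only [not_subset, mem_filter] at o
        grind
      obtain ⟨c, d, f, l, m⟩ : ∃ c < max x y, C c ∧ ¬ r x c ∧ ¬ r c y := by
        by_cases o : x = y
        · obtain ⟨c, d, f, l, m⟩ := c3 x (h x x1)
          exact ⟨c, by omega, f, m, o ▸ l⟩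
        · by_contra! u
          exact k x x1 y y1 o ((s1 _ _).2 (.inr ((q1 _ _).2 ⟨h x x1, h y y1, x, y, ((a1 _).1 (h x x1)).1, (p1 _ _).2
            ⟨h x x1, h y y1, fun c d f => or_iff_not_imp_left.2 (u c d f)⟩, ((a1 _).1 (h y y1)).1⟩)))
      have d : c ∈ range (t.sup id) := mem_range.2 (d.trans_le (max_le (le_sup (f := id) x1) (le_sup (f := id) y1)))
      have l : ∀ z ∈ t, ¬ r z c := fun z o u => l (mem_filter.1 (x2 z o (mem_filter.2 ⟨d, f, u⟩))).2.2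
      have m : ∀ z ∈ t, ¬ r c z := fun z o u => m (mem_filter.1 (y2 z o (mem_filter.2 ⟨d, f, u⟩))).2.2
      have := hw (insert c t) (by grind) (by grind)
      grind
  simp only [s4] at g2
  obtain ⟨M, m0, m1⟩ := greedy (E := fun a b => cd (g a ≠ g b ∨ q a b ∨ q b a)) a0 (by fun_prop)
  simp only [cd_true] at m1
  have m2 : ∀ a b, M a → M b → g a = g b → a ≠ b → q a b ∨ q b a := fun a b h k => by
    have := (m1 a).1 h
    have := (m1 b).1 k
    grind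
  obtain ⟨ρ, ρ0, ρ1⟩ := RI.choice (Y := O) (R := fun z m => A z = false ∨ M m ∧ g m = g z ∧ ¬ q m z ∧ ¬ q z m)
    (by fun_prop) fun z => by
      by_cases a : A z
      · by_cases b : M z
        · exact ⟨z, .inr ⟨b, rfl, q2 z, q2 z⟩⟩
        · simp only [m1 z, a, true_and, not_forall, not_or, not_not] at b
          exact b.imp fun m ⟨_, b, c⟩ => .inr ⟨b, c⟩
      · exact ⟨0, .inl (by simpa using a)⟩
  obtain ⟨N, n0, n1⟩ : ∃ N : ℕ → ℕ → ℕ → ℕ, CI O (fun z : ℕ × ℕ × ℕ => N z.1 z.2.1 z.2.2) ∧ ∀ a b t, N a b t =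
    ((range t).filter fun k => M k ∧ g k = g t ∧ q a k ∧ q k b).card := ⟨_, by fun_prop, fun _ _ _ => rfl⟩
  obtain ⟨κ, k0, k1, k2⟩ := colour (n := 6) (F := fun a m => cd (M a ∧ g a = g m ∧
    (q a m ∧ N a m m ≤ 2 ∨ q m a ∧ N m a m ≤ 2))) (by fun_prop) fun m => by
      have x := few (S := fun a b => q a b) ((range m).filter fun k => M k ∧ g k = g m ∧ q k m) q2 q4 (by grind)
      have y := few (S := fun a b => q b a) ((range m).filter fun k => M k ∧ g k = g m ∧ q m k) q2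
        (fun _ _ _ a b => q4 _ _ _ b a) (by grind)
      refine (card_le_card fun a h => ?_).trans ((card_union_le _ _).trans (add_le_add x y))
      simp only [mem_filter, cd_true, n1, mem_union, filter_filter, and_assoc] at h ⊢
      obtain ⟨h1, h2, h3, h | h⟩ := h
      exacts [.inl ⟨h1, h2, h3, h.1, by simpa only [and_comm] using h.2⟩, .inr ⟨h1, h2, h3, h⟩]
  simp only [cd_true, n1] at k2
  refine ⟨fun x => if C x then 0 else 14 * g x + 2 * κ (ρ x) + (s x (ρ x)).toNat + 1, by fun_prop, fun x => ?_,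
    fun x z a b e => ?_⟩
  · have := g1 x
    have := k1 (ρ x)
    have := (s x (ρ x)).toNat_le
    beta_reduce
    split_ifs <;> omega
  beta_reduce at e
  split_ifs at e with c d
  · exact c2 _ _ c d
  replace a : A x := (a1 _).2 ⟨a, c⟩
  replace b : A z := (a1 _).2 ⟨b, ‹_›⟩
  obtain ⟨e1, e2, e3⟩ : g x = g z ∧ κ (ρ x) = κ (ρ z) ∧ s x (ρ x) = s z (ρ z) := by
    have := k1 (ρ x)
    have := k1 (ρ z)
    cases h : s x (ρ x) <;> cases k : s z (ρ z) <;> simp [h, k] at e ⊢ <;> omega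
  clear e c ‹¬ _›
  wlog f : s x z generalizing x z
  · exact (this z x b a e1.symm e2.symm e3.symm ((g2 _ _ a b e1).resolve_left f)).symm
  refine .inl (by_contra fun h => ?_)
  have f : q x z := ((s1 _ _).1 f).resolve_left fun f => h f.2.2
  obtain ⟨x1, x2, x3, x4⟩ := (ρ1 x).resolve_left (by simpa)
  obtain ⟨z1, z2, z3, z4⟩ := (ρ1 z).resolve_left (by simpa)
  generalize ρ x = u at *
  generalize ρ z = v at *
  have mA : ∀ {k}, M k → A k := fun h => ((m1 _).1 h).1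
  by_cases o : u = v
  · subst o
    exact (g2 _ _ a (mA x1) x2.symm).elim (fun l => x4 (s3 _ _ _ f (e3 ▸ l))) fun l => z3 (s2 _ _ _ l f)
  obtain ⟨t, l⟩ : ∃ t, g t = g x ∧ (q u v → 2 < ((range t).filter fun k => M k ∧ g k = g t ∧ q u k ∧ q k v).card) ∧
      (q v u → 2 < ((range t).filter fun k => M k ∧ g k = g t ∧ q v k ∧ q k u).card) := by
    rcases lt_or_gt_of_ne o with o | o
    exacts [⟨v, by have := k2 v u o; grind⟩, ⟨u, by have := k2 u v o; grind⟩]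
  have lx := fun k (m : M k) (o : g k = g t) => g2 x k a (mA m) (by omega)
  have lz := fun k (m : M k) (o : g k = g t) => g2 z k b (mA m) (by omega)
  rcases m2 u v x1 z1 (by omega) o with o | o
  · obtain ⟨i, j, k, hi, hj, hk, d1, d2, d3⟩ := two_lt_card_iff.1 (l.2.1 o)
    obtain ⟨i, hi, j, hj, k, hk, d1, d2⟩ : ∃ i ∈ (range t).filter fun k => M k ∧ g k = g t ∧ q u k ∧ q k v,
        ∃ j ∈ (range t).filter fun k => M k ∧ g k = g t ∧ q u k ∧ q k v,
          ∃ k ∈ (range t).filter fun k => M k ∧ g k = g t ∧ q u k ∧ q k v, q i j ∧ q j k := by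
      have m := fun a b (h : a ∈ (range t).filter fun k => M k ∧ g k = g t ∧ q u k ∧ q k v)
        (k : b ∈ (range t).filter fun k => M k ∧ g k = g t ∧ q u k ∧ q k v) => m2 a b (mem_filter.1 h).2.1
          (mem_filter.1 k).2.1 ((mem_filter.1 h).2.2.1.trans (mem_filter.1 k).2.2.1.symm)
      rcases m i j hi hj d1 with x | x <;> rcases m i k hi hk d2 with y | y <;> rcases m j k hj hk d3 with z | z
      exacts [⟨i, hi, j, hj, k, hk, x, z⟩, ⟨i, hi, k, hk, j, hj, y, z⟩, ⟨i, hi, j, hj, k, hk, x, z⟩,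
        ⟨k, hk, i, hi, j, hj, y, x⟩, ⟨j, hj, i, hi, k, hk, x, y⟩, ⟨j, hj, i, hi, k, hk, x, y⟩,
        ⟨j, hj, k, hk, i, hi, z, y⟩, ⟨k, hk, j, hj, i, hi, z, x⟩]
    simp only [mem_filter] at hi hk
    obtain ⟨c, -, d⟩ := q3 x j z (s2 _ _ _ ((lx i hi.2.1 hi.2.2.1).resolve_right (x3 <| s3 _ _ _ hi.2.2.2.1 ·)) d1)
      (s3 _ _ _ d2 ((lz k hk.2.1 hk.2.2.1).resolve_left (z4 <| s2 _ _ _ · hk.2.2.2.2)))
    exact h (r3 _ _ _ d.1 d.2)
  · obtain ⟨k, hk⟩ := card_pos.1 (Nat.zero_lt_of_lt (l.2.2 o))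
    simp only [mem_filter] at hk
    exact q2 x (s3 _ _ _ (s3 _ _ _ f ((lz k hk.2.1 hk.2.2.1).resolve_right (z3 <| s3 _ _ _ hk.2.2.2.1 ·)))
      ((lx k hk.2.1 hk.2.2.1).resolve_left (x4 <| s2 _ _ _ · hk.2.2.2.2)))

end Pool.Agent.H.MP_738f58_lc
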